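import Pool.Agent.Run7.h45.TW3

/-!
# The McKay–Galois conjecture implies its form for automorphisms of order prime to `p`

Notation (`Pool/Agent/N84/MG`, `Pool/Agent/N19/RB/DefB.lean`, `Pool/Agent/Q259/BW/Bij.lean`), as in the
starting result `PowerOrbits`:

* `HG p G` is Navarro's group `𝓗` for `G`: the automorphisms `τ` of `ℂ` for which some `e ≥ 0` gives
  `τ ξ = ξ ^ (p ^ e)` for all `m`-th roots of unity `ξ`, `m` the `p'`-part of `|G|`.
* `XP p G` is `Irr_{p'}(G)`, `NS S` is the normalizer of the Sylow `p`-subgroup `S`.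
* `EquivBij Γ A A'`: there is a bijection `A → A'` commuting with all `σ ∈ Γ`.

Let `K` be a normal subgroup of the finite group `L` with `L / K` cyclic of order prime to `p`, generated by
`l K` with `l ∈ N_L(P)`, `P` a Sylow `p`-subgroup of `L` (and of `K`). For instance, `L = K ⋊ ⟨α⟩` for an
automorphism `α` of `K` of order prime to `p` with `α(P) = P`. The theorem says that the McKay–Galois
conjecture for all finite groups is equivalent to its form for automorphisms: there are as many
characters `ψ` in `Irr_{p'}(K)` as in `Irr_{p'}(N_K(P))` with `ψ ^ σ = ψ ^ l`, for all `σ ∈ 𝓗`, and also if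
one considers only the characters fixed by given automorphisms which fix the roots of unity of order
prime to `p`.

Proof. Let `m = |L : K|`, let `σ ∈ 𝓗` act on the roots of unity of order prime to `p` dividing `|K|` as
`ξ ↦ ξ ^ (p ^ e)`, `e > 0`, and let `V` be a cyclic group of order `N = p ^ (e m) - 1`. Then `L` acts on
`V` with kernel `K` such that `l` acts as `v ↦ v ^ (p ^ e)`. Choose an automorphism `κ` of `ℂ` with the same
action as `σ` on the `|K|`-th roots of unity, and `κ ξ = ξ ^ (p ^ e)` for the roots of unity of order prime to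
`p` dividing `|V ⋊ L|`. Then `κ η = η ^ l` for all characters `η` of `V`. So `κ` permutes the characters of
`V ⋊ L` over `η`, which correspond to the characters of the stabilizer `S` of `η` in `L`, in the same way
as `κ l⁻¹` permutes the characters of `S`. Hence the number of the `κ`-fixed characters in
`Irr_{p'}(V ⋊ L)` is a sum over the `η` of the numbers of the `ψ ∈ Irr_{p'}(S)` with `ψ ^ κ = ψ ^ l`, and the same
is true for the normalizer of `P` in `V ⋊ L`. By induction on `|L : K|` the contributions of the `η` with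
`S ≠ K` are equal, and `S = K` for the faithful `η`.
-/

set_option autoImplicit false
set_option linter.unusedSectionVars false

open scoped Classical

noncomputable section

namespace Pool.Agent.Results.MP_1ae3da_al.AutomorphismTwisted

open Pool.Agent.Q259.BW (EquivBij)
open Pool.Agent.N84.MG (XP NS)
open Pool.Agent.N19.RB (HG)

/-- The McKay–Galois conjecture at `p` for the finite groups in the class `C`. -/
def McKayGalois (p : ℕ) (C : ∀ (G : Type) [Group G], Prop) : Prop :=
  ∀ (G : Type) [Group G] [Finite G], C G → ∀ S : Sylow p G, EquivBij (HG p G) (XP p G) (XP p (NS S))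

/-- `C` is closed under semidirect products `V ⋊ L` of a finite cyclic group `V` of order prime to `p`
and a finite group `L` in `C`. -/
def Closed (p : ℕ) (C : ∀ (G : Type) [Group G], Prop) : Prop :=
  ∀ (N : ℕ) (L : Type) [Group L] [Finite L] (φ : L →* MulAut (Multiplicative (ZMod N))),
    ¬ p ∣ N → C L → C (Multiplicative (ZMod N) ⋊[φ] L)

/-- The automorphisms of `ℂ` which fix the `m`-th roots of unity, `m` the `p'`-part of `|G|`. -/
def FixPrimeRoots (p : ℕ) (G : Type) : Set (ℂ ≃+* ℂ) :=
  {τ | ∀ ξ : ℂ, ξ ^ (Nat.card G / p ^ (Nat.card G).factorization p) = 1 → τ ξ = ξ}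

/-- The number of the characters `ψ` in `Irr_{p'}(K)`, `K` a subgroup of `L`, which are fixed by all
automorphisms in `D`, with `ψ ^ σ = ψ ^ l`, i.e. `σ (ψ g) = ψ (l g l⁻¹)` for all `g ∈ K` with
`l g l⁻¹ ∈ K`. -/
def numTwisted (p : ℕ) (D : Set (ℂ ≃+* ℂ)) (σ : ℂ ≃+* ℂ) {L : Type} [Group L] (K : Subgroup L)
    (l : L) : ℕ :=
  Nat.card {ψ : K → ℂ // ψ ∈ XP p K ∧ (∀ δ ∈ D, ∀ g, δ (ψ g) = ψ g) ∧
    ∀ g h : K, (h : L) = l * g * l⁻¹ → σ (ψ g) = ψ h}

/-- The McKay–Galois conjecture for automorphisms, at `p`, for the finite groups in the class `C`. -/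
def Twisted (p : ℕ) (C : ∀ (G : Type) [Group G], Prop) : Prop :=
  ∀ (L : Type) [Group L] [Finite L], C L → ∀ K : Subgroup L, K.Normal → ¬ p ∣ K.index →
    ∀ (P : Sylow p L) (l : L), l ∈ Subgroup.normalizer (P : Set L) → K ⊔ Subgroup.zpowers l = ⊤ →
      ∀ σ ∈ HG p K, ∀ D ⊆ FixPrimeRoots p K,
        numTwisted p D σ K l = numTwisted p D σ (K ⊓ Subgroup.normalizer (P : Set L)) l

theorem num_eq (p : ℕ) (D : Set (ℂ ≃+* ℂ)) (σ : ℂ ≃+* ℂ) {L : Type} [Group L] (K : Subgroup L)
    (l : L) : numTwisted p D σ K l = Pool.Agent.Run7.h45.TW.tr p D σ K (Pool.Agent.Run7.h45.TW.cj l K) :=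
  Nat.card_congr (Equiv.subtypeEquivRight fun _ => and_assoc.symm)

/-- **The McKay–Galois conjecture with automorphisms.** Let `p` be a prime and `C` a class of groups
closed under semidirect products `V ⋊ L`, `V` finite cyclic of order prime to `p`, `L` a finite group in `C`
(for instance all groups). The McKay–Galois conjecture holds at `p` for all finite groups in `C` if and
only if it holds in the form for automorphisms of order prime to `p`. -/
theorem result (p : ℕ) [Fact p.Prime] (C : ∀ (G : Type) [Group G], Prop) (hC : Closed p C) :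
    McKayGalois p C ↔ Twisted p C := by
  refine (Pool.Agent.Run7.h45.TW.mg_iff (p := p) hC).trans ?_
  unfold Pool.Agent.Run7.h45.TW.TwP Twisted
  constructor
  · intro h L _ _ hL K hK hi P l hl hgen σ hσ D hD
    rw [num_eq, num_eq]
    exact h L hL K hK hi P l hl hgen σ hσ D hD
  · intro h L _ _ hL K hK hi P l hl hgen σ hσ D hD
    have h1 := h L hL K hK hi P l hl hgen σ hσ D hD
    rw [num_eq, num_eq] at h1
    exact h1

end Pool.Agent.Results.MP_1ae3da_al.AutomorphismTwisted
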