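import Pool.Agent.Run7.h45.QP7

/-!
# The McKay–Galois conjecture: all or nothing in primitive permutation groups

Notation (`Pool/Agent/N84/MG`, `Pool/Agent/N19/RB/DefB.lean`, `Pool/Agent/Q259/BW/Bij.lean`), as in the
starting result `PowerOrbits`:

* `HG p G` is Navarro's group `𝓗` for `G`: the automorphisms `τ` of `ℂ` for which some `e ≥ 0` gives
  `τ ξ = ξ ^ (p ^ e)` for all `m`-th roots of unity `ξ`, `m` the `p'`-part of `|G|`.
* `XP p G` is `Irr_{p'}(G)`, `NS S` is the normalizer of the Sylow `p`-subgroup `S`.
* `EquivBij Γ A A'`: there is a bijection `A → A'` commuting with all `σ ∈ Γ`.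
* `Ext p G H`: the group `H` has a normal subgroup isomorphic to `C_d × G^n` for some `d`, `n`, with
  abelian factor group of order prime to `p`.

Proof. Let `e ≠ r` be primes with `e r ∣ p - 1`; then `𝓗` fixes the roots of unity of order dividing `e r`.
Let `V` be an abelian group of exponent dividing `e r` on which `L` acts, `P` a Sylow `p`-subgroup of `L`,
and let `D_Δ(G)` be the difference of the numbers of the characters in `Irr_{p'}(G)` and in
`Irr_{p'}(N_G(P))` which are fixed by `Δ ≤ 𝓗`. Then `|N_L(P)| D_Δ(V ⋊ L)` is the sum of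
`|N_{L_θ}(P)| D_Δ(L_θ)` over the `P`-invariant characters `θ` of `V`.

Let `G` be a counterexample of smallest order in `C`, say `D_Δ(G) > 0`, let `T` be elementary abelian of
order `e ^ k` and `X = G × T`. The subgroups of `X` are of the form `T₁ × G₁` with `G₁ ≤ G`, so
`D_Δ(Y) ≥ 0` for all `Y ≤ X`, with `D_Δ(Y) ≥ 1` if `Y` contains `G`. Let `E` be cyclic of order `e`, `W` a
nontrivial irreducible `E`-module over the field with `r` elements, `M = E ≀ X` (regular action of `X`)
and `V = W ^ X`. This is a faithful irreducible `M`-module, and the stabilizers of its characters in `M`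
are isomorphic to semidirect products `A ⋊ Y` with `A ≤ E ^ X` and `Y ≤ X`. Hence `D_Δ` is nonnegative on
them, and `D_Δ(V ⋊ M) ≥ D_Δ(M)`, which is at least `1 / |X|` times the number of the characters of `E ^ X`
fixed by `G`, so at least `e ^ (e ^ k) / (|G| e ^ k)`, while the order of the primitive group `V ⋊ M` is at
most `c ^ (e ^ k)`, where `c` depends on `G`, `e`, `r` only. For the second part one uses the proof of the
starting result `PowerOrbits`.
-/

set_option autoImplicit false
set_option linter.unusedSectionVars false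

open scoped Classical

noncomputable section

namespace Pool.Agent.Results.MP_1ae3da_al.PrimitiveGroups

open Pool.Agent.Q259.BW (EquivBij)
open Pool.Agent.N84.MG (XP NS Ext)
open Pool.Agent.N19.RB (HG)

/-- The number of the characters in `Irr_{p'}(G)` which are fixed by all automorphisms in `Δ`. -/
def numFixed (p : ℕ) (Δ : Subgroup (ℂ ≃+* ℂ)) (G : Type) [Group G] : ℕ :=
  Nat.card {χ : G → ℂ | χ ∈ XP p G ∧ ∀ σ ∈ Δ, ∀ g, σ (χ g) = χ g}

/-- The McKay–Galois conjecture at `p` for the finite groups in the class `C`. -/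
def McKayGalois (p : ℕ) (C : ∀ (G : Type) [Group G], Prop) : Prop :=
  ∀ (G : Type) [Group G] [Finite G], C G → ∀ S : Sylow p G, EquivBij (HG p G) (XP p G) (XP p (NS S))

/-- `C` is a class of groups closed under isomorphisms, subgroups, and semidirect products `V ⋊ L` of a
finite elementary abelian `e`-group `V` and a finite group `L` in `C`. -/
structure Closed (e : ℕ) (C : ∀ (G : Type) [Group G], Prop) : Prop where
  iso : ∀ (G H : Type) [Group G] [Group H], Nonempty (G ≃* H) → C G → C H
  sub : ∀ (G : Type) [Group G] (H : Subgroup G), C G → C H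
  ext : ∀ (V L : Type) [CommGroup V] [Group L] [Finite V] [Finite L] (φ : L →* MulAut V),
    (∀ v : V, v ^ e = 1) → C L → C (V ⋊[φ] L)

/-- `H` has a maximal subgroup `M` in `C` with trivial core and an elementary abelian normal `r`-subgroup
`V` which is a complement of `M`. For finite `H` and a prime `r` this means that `H` is isomorphic to a
primitive permutation group of affine type whose degree is a power of `r` and whose point stabilizers are
in `C`. -/
def Primitive (r : ℕ) (C : ∀ (G : Type) [Group G], Prop) (H : Type) [Group H] : Prop :=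
  ∃ V M : Subgroup H, IsCoatom M ∧ M.normalCore = ⊥ ∧ V.Normal ∧ (∀ x ∈ V, ∀ y ∈ V, x * y = y * x) ∧
    (∀ x ∈ V, x ^ r = 1) ∧ V.IsComplement' M ∧ C M

/-- For every `ε > 0` there is a constant `c` such that the numbers of the `Δ`-fixed characters in
`Irr_{p'}(H)` and in `Irr_{p'}(N_H(T))` differ by at most `c |H| ^ ε`, for all finite groups `H` with
`Primitive r C H`, all Sylow `p`-subgroups `T` of `H` and all subgroups `Δ` of `𝓗` with the property
`Q`. -/
def SmallDiff (p r : ℕ) (C : ∀ (G : Type) [Group G], Prop)
    (Q : Type → Subgroup (ℂ ≃+* ℂ) → Prop) : Prop :=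
  ∀ ε : ℝ, 0 < ε → ∃ c : ℝ, ∀ (H : Type) [Group H] [Finite H], Primitive r C H →
    ∀ (T : Sylow p H) (Δ : Subgroup (ℂ ≃+* ℂ)), (Δ : Set (ℂ ≃+* ℂ)) ⊆ HG p H → Q H Δ →
      |(numFixed p Δ H : ℝ) - numFixed p Δ (NS T)| ≤ c * (Nat.card H : ℝ) ^ ε

/-- Every automorphism in `𝓗` has a power in `Δ` whose exponent is a power of `p` (so the `Δ`-fixed
characters have `𝓗`-orbits of `p`-power length). -/
def PPower (p : ℕ) (H : Type) (Δ : Subgroup (ℂ ≃+* ℂ)) : Prop :=
  ∀ σ ∈ HG p H, ∃ j : ℕ, σ ^ p ^ j ∈ Δ

theorem small_iff (p r : ℕ) (C : ∀ (G : Type) [Group G], Prop) (b : Prop)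
    (Q : Type → Subgroup (ℂ ≃+* ℂ) → Prop) (hQ : ∀ H Δ, Q H Δ ↔ (b → PPower p H Δ)) :
    SmallDiff p r C Q ↔ Run7.h45.QP.GrowB b p r C := by
  constructor
  · intro h ε hε
    obtain ⟨c, hc⟩ := h ε hε
    exact ⟨c, fun H _ _ hH T Δ hΔ => hc H hH T Δ hΔ.1 ((hQ H Δ).mpr hΔ.2)⟩
  · intro h ε hε
    obtain ⟨c, hc⟩ := h ε hε
    exact ⟨c, fun H _ _ hH T Δ hΔ h1 => hc H hH T Δ ⟨hΔ, (hQ H Δ).mp h1⟩⟩

/-- **The McKay–Galois conjecture: all or nothing in primitive groups.** Let `p` be a prime, `e ≠ r` primes
with `e r ∣ p - 1`, and `C` a class of groups closed under isomorphisms, subgroups and split extensions of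
finite elementary abelian `e`-groups by finite groups in `C`.
(1) The McKay–Galois conjecture holds at `p` for all finite groups in `C` if and only if, for every
`ε > 0`, the numbers of the `Δ`-fixed characters in `Irr_{p'}(H)` and in `Irr_{p'}(N_H(T))` differ by at
most `c |H| ^ ε`, `c` a constant, for all finite primitive permutation groups `H` of affine type whose
degree is a power of `r` and whose point stabilizers are in `C`, and all `Δ ≤ 𝓗`.
(2) If `C` is also closed under passing from a finite group `G` to the finite groups which have a normal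
subgroup isomorphic to some `C_d × G^n` with abelian factor group of order prime to `p`, then this is
only needed for the subgroups `Δ` of `𝓗` of `p`-power index (`PPower`). -/
theorem result (p r e : ℕ) [Fact p.Prime] [Fact r.Prime] [Fact e.Prime] (her : e ≠ r)
    (hp : e * r ∣ p - 1) (C : ∀ (G : Type) [Group G], Prop) (hC : Closed e C) :
    (McKayGalois p C ↔ SmallDiff p r C fun _ _ => True) ∧
    ((∀ (G H : Type) [Group G] [Group H] [Finite G] [Finite H], C G → Ext p G H → C H) →
      (McKayGalois p C ↔ SmallDiff p r C (PPower p))) := by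
  constructor
  · rw [small_iff p r C False _ fun H Δ => by simp]
    exact Run7.h45.QP.mgal_prim her hp ⟨hC.iso, hC.sub, hC.ext⟩
  · intro hext
    rw [small_iff p r C True _ fun H Δ => by simp]
    exact Run7.h45.QP.mgal_prim_pow her hp ⟨hC.iso, hC.sub, hC.ext⟩ hext

end Pool.Agent.Results.MP_1ae3da_al.PrimitiveGroups
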