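import Pool.Agent.Run7.h45.MC5

/-!
# The McKay–Galois conjecture for odd primes: small errors in groups of characteristic `r`

Notation (`Pool/Agent/N84/MG`, `Pool/Agent/N19/RB/DefB.lean`, `Pool/Agent/Q259/BW/Bij.lean`), as in the
starting result `PowerOrbits`:

* `HG p G` is Navarro's group `𝓗` for `G`: the automorphisms `τ` of `ℂ` for which some `e ≥ 0` gives
  `τ ξ = ξ ^ (p ^ e)` for all `m`-th roots of unity `ξ`, `m` the `p'`-part of `|G|`.
* `XP p G` is `Irr_{p'}(G)`, `NS S` is the normalizer of the Sylow `p`-subgroup `S`.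
* `EquivBij Γ A A'`: there is a bijection `A → A'` commuting with all `σ ∈ Γ`.
* `Ext p G H`: the group `H` has a normal subgroup isomorphic to `C_d × G^n` for some `d`, `n`, with
  abelian factor group of order prime to `p`.

Outline. Let `r` be a prime divisor of `p - 1`; then `𝓗` fixes the `r`-th roots of unity. Let `V` be an
elementary abelian `r`-group on which `L` acts, `P` a Sylow `p`-subgroup of `L`, and let `D_Δ(G)` be the
difference of the numbers of the characters in `Irr_{p'}(G)` and in `Irr_{p'}(N_G(P))` which are fixed by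
`Δ ≤ 𝓗`. The Clifford correspondence over a character of `V` commutes with `𝓗`, and the `P`-invariant
characters of `V` under a character of degree prime to `p` form one orbit of the Sylow normalizer. This
gives `|N_L(P)| D_Δ(V ⋊ L) = ∑_θ |N_{L_θ}(P)| D_Δ(L_θ)`, the sum over the `P`-invariant characters `θ` of
`V`. If `L` is a counterexample of smallest order in the class, then `D_Δ(V ⋊ L)` is the number of the
invariant characters `θ` times `D_Δ(L)`, and for `V = C_r ^ n × C_r[L]` this is at least a fixed multiple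
of `|V ⋊ L|`. For the second part one uses the proof of the starting result `PowerOrbits`.
-/

set_option autoImplicit false
set_option linter.unusedSectionVars false

open scoped Classical

noncomputable section

namespace Pool.Agent.Results.MP_1ae3da_al.SmallErrors

open Pool.Agent.Q259.BW (EquivBij)
open Pool.Agent.N84.MG (XP NS Ext)
open Pool.Agent.N19.RB (HG)

/-- The number of the characters in `Irr_{p'}(G)` which are fixed by all automorphisms in `Δ`. -/
def numFixed (p : ℕ) (Δ : Subgroup (ℂ ≃+* ℂ)) (G : Type) [Group G] : ℕ :=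
  Nat.card {χ : G → ℂ | χ ∈ XP p G ∧ ∀ σ ∈ Δ, ∀ g, σ (χ g) = χ g}

/-- The McKay–Galois conjecture at `p` for the finite groups in the class `C`. -/
def McKayGalois (p : ℕ) (C : ∀ (G : Type) [Group G], Prop) : Prop :=
  ∀ (G : Type) [Group G] [Finite G], C G → ∀ S : Sylow p G, EquivBij (HG p G) (XP p G) (XP p (NS S))

/-- `C` is a class of groups closed under isomorphisms and under subgroups of index prime to `p` of
finite groups. -/
structure Closed (p : ℕ) (C : ∀ (G : Type) [Group G], Prop) : Prop where
  iso : ∀ (G H : Type) [Group G] [Group H], Nonempty (G ≃* H) → C G → C H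
  sub : ∀ (G : Type) [Group G] [Finite G] (H : Subgroup G), ¬ p ∣ H.index → C G → C H

/-- `H` has a nontrivial elementary abelian normal `r`-subgroup `V` with centralizer `V` and with a
complement in the class `C`. -/
def Fam (r : ℕ) (C : ∀ (G : Type) [Group G], Prop) (H : Type) [Group H] : Prop :=
  ∃ V K : Subgroup H, V ≠ ⊥ ∧ V.Normal ∧ (∀ v ∈ V, v ^ r = 1) ∧
    Subgroup.centralizer (V : Set H) = V ∧ V.IsComplement' K ∧ C K

/-- For every `ε > 0`, all sufficiently large finite groups `H` in `Fam r C`, all Sylow `p`-subgroups `T`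
of `H` and all subgroups `Δ` of `𝓗` with the property `Q`, the numbers of the `Δ`-fixed characters in
`Irr_{p'}(H)` and in `Irr_{p'}(N_H(T))` differ by at most `ε |H|`. -/
def SmallDiff (p r : ℕ) (C : ∀ (G : Type) [Group G], Prop)
    (Q : Type → Subgroup (ℂ ≃+* ℂ) → Prop) : Prop :=
  ∀ ε : ℝ, 0 < ε → ∃ n₀ : ℕ, ∀ (H : Type) [Group H] [Finite H], Fam r C H → n₀ ≤ Nat.card H →
    ∀ (T : Sylow p H) (Δ : Subgroup (ℂ ≃+* ℂ)), (Δ : Set (ℂ ≃+* ℂ)) ⊆ HG p H → Q H Δ →
      |(numFixed p Δ H : ℝ) - numFixed p Δ (NS T)| ≤ ε * Nat.card H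

/-- Every automorphism in `𝓗` has a power in `Δ` whose exponent is a power of `p` (so the `Δ`-fixed
characters have `𝓗`-orbits of `p`-power length). -/
def PPower (p : ℕ) (H : Type) (Δ : Subgroup (ℂ ≃+* ℂ)) : Prop :=
  ∀ σ ∈ HG p H, ∃ j : ℕ, σ ^ p ^ j ∈ Δ

theorem nf_eq (p : ℕ) (Δ : Subgroup (ℂ ≃+* ℂ)) (G : Type) [Group G] :
    numFixed p Δ G = Run7.h45.MC.nf p (Δ : Set (ℂ ≃+* ℂ)) G := rfl

theorem small_iff (p r : ℕ) (C : ∀ (G : Type) [Group G], Prop) (b : Prop)
    (Q : Type → Subgroup (ℂ ≃+* ℂ) → Prop) (hQ : ∀ H Δ, Q H Δ ↔ (b → PPower p H Δ)) :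
    SmallDiff p r C Q ↔ Run7.h45.MC.Small b p r C := by
  constructor
  · intro h ε hε
    obtain ⟨n₀, hn⟩ := h ε hε
    exact ⟨n₀, fun H _ _ hH hc T Δ hΔ => hn H hH hc T Δ hΔ.1 ((hQ H Δ).mpr hΔ.2)⟩
  · intro h ε hε
    obtain ⟨n₀, hn⟩ := h ε hε
    exact ⟨n₀, fun H _ _ hH hc T Δ hΔ h1 => hn H hH hc T Δ ⟨hΔ, (hQ H Δ).mp h1⟩⟩

/-- **The McKay–Galois conjecture for odd primes: small errors.** Let `p` and `r` be primes such that `r`
divides `p - 1` and let `C` be a class of groups closed under isomorphisms and subgroups of index prime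
to `p`.
(1) The McKay–Galois conjecture holds at `p` for all finite groups in `C` if and only if, for every
`ε > 0`, the numbers of the `Δ`-fixed characters in `Irr_{p'}(H)` and in `Irr_{p'}(N_H(T))` differ by at
most `ε |H|`, for all sufficiently large finite groups `H` which have a nontrivial elementary abelian
normal `r`-subgroup `V` with centralizer `V` and with a complement in `C`, and all `Δ ≤ 𝓗`.
(2) If `C` is also closed under passing from a finite group `G` to the finite groups which have a normal
subgroup isomorphic to some `C_d × G^n` with abelian factor group of order prime to `p`, then this is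
only needed for the subgroups `Δ` of `𝓗` of `p`-power index (`PPower`). -/
theorem result (p r : ℕ) [Fact p.Prime] [Fact r.Prime] (hrp : r ∣ p - 1)
    (C : ∀ (G : Type) [Group G], Prop) (hC : Closed p C) :
    (McKayGalois p C ↔ SmallDiff p r C fun _ _ => True) ∧
    ((∀ (G H : Type) [Group G] [Group H] [Finite G] [Finite H], C G → Ext p G H → C H) →
      (McKayGalois p C ↔ SmallDiff p r C (PPower p))) := by
  constructor
  · rw [small_iff p r C False _ fun H Δ => by simp]
    exact Run7.h45.MC.mgal_all hrp ⟨hC.iso, hC.sub⟩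
  · intro hext
    rw [small_iff p r C True _ fun H Δ => by simp]
    exact Run7.h45.MC.mgal_pow hrp ⟨hC.iso, hC.sub⟩ hext

end Pool.Agent.Results.MP_1ae3da_al.SmallErrors
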